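import Mathlib
import Pool.Agent.Run7.h512.Gl

/-!
Gluing theorem for arbitrary corona data on the unit ball of `ℂ^n`: solutions near infinitely many
sets `{|φ_k(⟨e_k, z⟩)| < ε}` (directions `e_k` arbitrary) and a solution away from them can be
replaced by a bounded solution on the ball. The constants do not depend on the dimension, nor on the
number or the directions of the functions.

* `Pool.Agent.Run7.h512.{Hyp, Geo, Wt}`: bounded holomorphic weights for families of hyperplane tubes.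
* `Pool.Agent.Run7.h512.{Op, Glue, Glue2}`: a solution operator of the d-bar equation for single cells,
  simultaneous solutions for families of cells in varying directions, the Bezout equation.
* `Pool.Agent.Run7.h512.{Arc, MaxP, Cut}`: Carleson type cutoff functions of one variable whose cells
  are controlled by `1 - |φ|²`.
* `Pool.Agent.Run7.h512.Gl`: the gluing theorem.
-/

set_option autoImplicit false

open Metric Set

namespace Pool.Agent.Results.MP_ca0fc2_an.GluingTheorem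

/-- `ℂ^n` with the Euclidean norm. -/
abbrev V (n : ℕ) := EuclideanSpace ℂ (Fin n)

/-- `‖e_k‖ = 1`, `φ_k` is holomorphic on the unit disc with `|φ_k| ≤ 1`,
`∑_k (1 - |φ_k(⟨e_k, z⟩)|²) ≤ M` on the ball, and the sets `{|φ_k(⟨e_k, z⟩)| < ε}` in the ball are
pairwise disjoint. -/
structure IsSeparated {n : ℕ} {κ : Type} (M ε : ℝ) (e : κ → V n) (φ : κ → ℂ → ℂ) : Prop where
  unit : ∀ k, ‖e k‖ = 1
  hol : ∀ k, DifferentiableOn ℂ (φ k) (ball 0 1)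
  bound : ∀ k, ∀ ζ ∈ ball (0 : ℂ) 1, ‖φ k ζ‖ ≤ 1
  sum : ∀ z ∈ ball (0 : V n) 1, ∀ s : Finset κ, ∑ k ∈ s, (1 - ‖φ k (inner ℂ (e k) z)‖ ^ 2) ≤ M
  disjoint : ∀ j k, j ≠ k → ∀ z ∈ ball (0 : V n) 1, ‖φ j (inner ℂ (e j) z)‖ < ε →
    ε ≤ ‖φ k (inner ℂ (e k) z)‖

/-- The equation `∑ F_i g_i = 1` has a solution with `g_i` holomorphic on `Ω` and bounded by `C`. -/
def Solvable {n m : ℕ} (Ω : Set (V n)) (F : Fin m → V n → ℂ) (C : ℝ) : Prop :=
  ∃ g : Fin m → V n → ℂ, (∀ i, DifferentiableOn ℂ (g i) Ω) ∧ (∀ i, ∀ z ∈ Ω, ‖g i z‖ ≤ C) ∧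
    ∀ z ∈ Ω, ∑ i, F i z * g i z = 1

/-- **Gluing theorem.** Let the arbitrary data `F_1, …, F_m` be solvable with bound `Q` on each set
`{|φ_k(⟨e_k, z⟩)| < ε}` and on the set where `|φ_k(⟨e_k, z⟩)| > ε'` for all `k`. Then they are
solvable on the ball, with a bound which depends only on `m`, `M`, `ε` and `Q`. -/
theorem result (ε : ℝ) (hε : 0 < ε) : ∃ ε' : ℝ, 0 < ε' ∧ ε' ≤ ε ∧ ∀ (m : ℕ) (M Q : ℝ), ∃ C : ℝ,
    ∀ (n : ℕ) (κ : Type) (e : κ → V n) (φ : κ → ℂ → ℂ) (F : Fin m → V n → ℂ),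
      IsSeparated M ε e φ →
      (∀ i, DifferentiableOn ℂ (F i) (ball 0 1) ∧ ∀ z ∈ ball (0 : V n) 1, ‖F i z‖ ≤ 1) →
      (∀ k, Solvable {z | z ∈ ball (0 : V n) 1 ∧ ‖φ k (inner ℂ (e k) z)‖ < ε} F Q) →
      Solvable {z | z ∈ ball (0 : V n) 1 ∧ ∀ k, ε' < ‖φ k (inner ℂ (e k) z)‖} F Q →
      Solvable (ball 0 1) F C := by
  obtain ⟨ε', h1, h2, H⟩ := Run7.h512.gl_main hε
  refine ⟨ε', h1, h2, fun m M Q => ?_⟩
  obtain ⟨C, -, HC⟩ := H m M Q
  refine ⟨C, ?_⟩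
  intro n κ e φ F hφ hF hin hout
  refine HC (V n) κ e φ hφ.unit hφ.hol hφ.bound hφ.sum hφ.disjoint F (fun i => (hF i).1)
    (fun i => (hF i).2) (fun k => ?_) ?_
  · obtain ⟨g, g1, g2, g3⟩ := hin k
    have hsub : {z : V n | ‖z‖ < 1 ∧ ‖φ k (inner ℂ (e k) z)‖ < ε} ⊆
        {z | z ∈ ball (0 : V n) 1 ∧ ‖φ k (inner ℂ (e k) z)‖ < ε} :=
      fun z hz => ⟨mem_ball_zero_iff.2 hz.1, hz.2⟩
    exact ⟨g, fun i => (g1 i).mono hsub, fun i z hz => g2 i z (hsub hz), fun z hz => g3 z (hsub hz)⟩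
  · obtain ⟨g, g1, g2, g3⟩ := hout
    have hsub : {z : V n | ‖z‖ < 1 ∧ ∀ k, ε' < ‖φ k (inner ℂ (e k) z)‖} ⊆
        {z | z ∈ ball (0 : V n) 1 ∧ ∀ k, ε' < ‖φ k (inner ℂ (e k) z)‖} :=
      fun z hz => ⟨mem_ball_zero_iff.2 hz.1, hz.2⟩
    exact ⟨g, fun i => (g1 i).mono hsub, fun i z hz => g2 i z (hsub hz), fun z hz => g3 z (hsub hz)⟩

end Pool.Agent.Results.MP_ca0fc2_an.GluingTheorem
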