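import Mathlib
import Pool.Agent.Run7.h512.Sec2

/-!
# Arbitrary corona data on the ball: exact solutions on infinitely many complex geodesics

`D_k = B ∩ (p_k + ℂ u_k)`, `k` in an arbitrary index set, are complex geodesics of the unit ball `B`
of `ℂ^n`; each of them lies in a hyperplane `H_k` (through `p_k`, orthogonal to `e_k`), and the
hyperplanes satisfy a uniform Blaschke condition: `∑ (1 - |φ_k(⟨e_k, z⟩)|²) ≤ M` for all `z` in `B`,
where `φ_k` is the Moebius map with zero `⟨e_k, p_k⟩`. The discs may meet each other.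

If `F_1, …, F_N` are arbitrary holomorphic functions on `B` with `|F_i| ≤ 1` and `∑ |F_i| ≥ δ` on
the discs `D_k` (for instance arbitrary corona data on `B`), then there are bounded holomorphic
`y_1, …, y_N` on the whole ball with `∑ F_i y_i = 1` on all `D_k` and `|∑ F_i y_i - 1| ≤ ε` on the
hyperbolic neighbourhoods of the `D_k` of a fixed radius. The bounds depend neither on `n` nor on
the number or the position of the discs.

The first part is the gluing theorem behind it: solutions on subsets `S_k` of the hyperplanes `H_k`.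
-/

set_option autoImplicit false

open Metric Set

namespace Pool.Agent.Results.MP_ca0fc2_an.InfinitelyManyGeodesics

/-- `ℂ^n` with the Euclidean norm -/
abbrev V (n : ℕ) := EuclideanSpace ℂ (Fin n)

/-- the intersection of the unit ball with the complex line through `p` with direction `u` -/
def geod {n : ℕ} (p u : V n) : Set (V n) :=
  {z | z ∈ ball (0 : V n) 1 ∧ ∃ ζ : ℂ, z = p + ζ • u}

/-- the neighbourhood of `S` of radius `r` in the pseudohyperbolic distance of the ball -/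
def Near {n : ℕ} (r : ℝ) (S : Set (V n)) : Set (V n) :=
  {z | z ∈ ball (0 : V n) 1 ∧ ∃ x ∈ S,
    (1 - r ^ 2) * ‖1 - (inner ℂ x z : ℂ)‖ ^ 2 ≤ (1 - ‖x‖ ^ 2) * (1 - ‖z‖ ^ 2)}

/-- hyperplanes through the points `p k` of the ball with unit normals `e k` which satisfy a
uniform Blaschke condition -/
structure IsBlaschke {n : ℕ} {κ : Type} (M : ℝ) (e p : κ → V n) : Prop where
  unit : ∀ k, ‖e k‖ = 1
  point : ∀ k, ‖p k‖ < 1
  sum : ∀ z ∈ ball (0 : V n) 1, ∀ s : Finset κ,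
    ∑ k ∈ s, (1 - ‖((inner ℂ (e k) z : ℂ) - inner ℂ (e k) (p k)) /
      (1 - starRingEnd ℂ (inner ℂ (e k) (p k)) * inner ℂ (e k) z)‖ ^ 2) ≤ M

/-- `F_1, …, F_N` holomorphic and bounded by `C` on the ball -/
def IsBounded {n N : ℕ} (F : Fin N → V n → ℂ) (C : ℝ) : Prop :=
  ∀ i, DifferentiableOn ℂ (F i) (ball 0 1) ∧ ∀ z ∈ ball (0 : V n) 1, ‖F i z‖ ≤ C

/-- **Gluing of solutions on hyperplane sections, and exact solutions on infinitely many complex
geodesics for arbitrary corona data.** -/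
theorem result (N : ℕ) (M : ℝ) :
    (∀ Q : ℝ, ∃ C : ℝ, ∀ (n : ℕ) (κ : Type) (e p : κ → V n) (S : κ → Set (V n))
      (F : Fin N → V n → ℂ), IsBlaschke M e p → IsBounded F 1 →
      (∀ k, S k ⊆ {z | z ∈ ball (0 : V n) 1 ∧ (inner ℂ (e k) z : ℂ) = inner ℂ (e k) (p k)}) →
      (∀ k, ∃ b : Fin N → V n → ℂ, IsBounded b Q ∧ ∀ z ∈ S k, ∑ i, F i z * b i z = 1) →
      ∃ y : Fin N → V n → ℂ, IsBounded y C ∧ ∀ k, ∀ z ∈ S k, ∑ i, F i z * y i z = 1) ∧
    ∀ δ : ℝ, 0 < δ → ∃ r : ℝ, 0 < r ∧ ∀ ε : ℝ, 0 < ε → ∃ C : ℝ, ∀ (n : ℕ) (κ : Type)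
      (e p u : κ → V n) (F : Fin N → V n → ℂ), IsBlaschke M e p →
      (∀ k, u k ≠ 0 ∧ (inner ℂ (e k) (u k) : ℂ) = 0) → IsBounded F 1 →
      (∀ k, ∀ z ∈ geod (p k) (u k), δ ≤ ∑ i, ‖F i z‖) →
      ∃ y : Fin N → V n → ℂ, IsBounded y C ∧
        (∀ k, ∀ z ∈ geod (p k) (u k), ∑ i, F i z * y i z = 1) ∧
        ∀ k, ∀ z ∈ Near r (geod (p k) (u k)), ‖∑ i, F i z * y i z - 1‖ ≤ ε := by
  constructor
  · intro Q
    obtain ⟨C, -, H⟩ := Run7.h512.sec_inf N M (le_max_right Q 0)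
    refine ⟨C, ?_⟩
    intro n κ e p S F hB hF hS hb
    obtain ⟨y, y1, y2, y3⟩ := H (V n) κ e (fun k => inner ℂ (e k) (p k)) hB.unit
      (fun k => Run7.h512.inner_lt (hB.unit k) (hB.point k)) hB.sum F (fun i => (hF i).1)
      (fun i => (hF i).2) S (fun k z hz => hS k hz) (fun k => by
        obtain ⟨b, b1, b2⟩ := hb k
        exact ⟨b, fun i => (b1 i).1, fun i z hz => ((b1 i).2 z hz).trans (le_max_left _ _), b2⟩)
    exact ⟨y, fun i => ⟨y1 i, y2 i⟩, y3⟩
  · intro δ hδ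
    obtain ⟨r, hr, H⟩ := Run7.h512.geo_inf N M hδ
    refine ⟨r, hr, fun ε hε => ?_⟩
    obtain ⟨C, -, H⟩ := H ε hε
    refine ⟨C, ?_⟩
    intro n κ e p u F hB hu hF hFl
    obtain ⟨y, y1, y2, y3, y4⟩ := H (V n) κ e p u hB.unit hB.point (fun k => (hu k).1)
      (fun k => (hu k).2) hB.sum F (fun i => (hF i).1) (fun i => (hF i).2)
      (fun k ζ hζ => hFl k _ ⟨hζ, ζ, rfl⟩)
    refine ⟨y, fun i => ⟨y1 i, y2 i⟩, ?_, ?_⟩
    · rintro k z ⟨hz, ζ, rfl⟩
      exact y3 k ζ hz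
    · rintro k z ⟨hz, x, ⟨hx, ζ, rfl⟩, h⟩
      exact y4 k ζ hx z hz h

end Pool.Agent.Results.MP_ca0fc2_an.InfinitelyManyGeodesics
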