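import Mathlib
import Pool.Agent.Run7.h512.Ind

/-!
Corona data on the unit ball of `ℂ^n` which contain infinite products of functions of one variable in
arbitrary directions. The constants do not depend on the dimension, nor on the number or the
directions of the factors.

* `Pool.Agent.Run7.h512.{Hyp, Geo, Wt}`: bounded holomorphic weights for families of hyperplane tubes.
* `Pool.Agent.Run7.h512.{Op, Glue}`: a solution operator of the d-bar equation for single cells,
  simultaneous solutions for families of cells in varying directions.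
* `Pool.Agent.Run7.h512.{Arc, MaxP, Cut}`: Carleson type cutoff functions of one variable whose cells
  are controlled by `1 - |φ|²`.
* `Pool.Agent.Run7.h512.{FW, Prod, Ind}`: holomorphic weights for the sublevel sets of the factors,
  the corona theorem for products.
-/

set_option autoImplicit false

open Metric Set

namespace Pool.Agent.Results.MP_ca0fc2_an.OneVariableProducts

/-- `ℂ^n` with the Euclidean norm. -/
abbrev V (n : ℕ) := EuclideanSpace ℂ (Fin n)

/-- On the unit ball `f` is the (unconditional, pointwise) product of the functions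
`z ↦ φ_k(⟨e_k, z⟩)`, `k ∈ κ`, where `‖e_k‖ = 1`, where `φ_k` is holomorphic on the unit disc with
`|φ_k| ≤ 1`, and where `∑_k (1 - |φ_k(⟨e_k, z⟩)|²) ≤ M` at each point `z` of the ball. -/
structure IsProduct {n : ℕ} {κ : Type} (M : ℝ) (e : κ → V n) (φ : κ → ℂ → ℂ) (f : V n → ℂ) :
    Prop where
  unit : ∀ k, ‖e k‖ = 1
  hol : ∀ k, DifferentiableOn ℂ (φ k) (ball 0 1)
  bound : ∀ k, ∀ ζ ∈ ball (0 : ℂ) 1, ‖φ k ζ‖ ≤ 1
  sum : ∀ z ∈ ball (0 : V n) 1, ∀ s : Finset κ, ∑ k ∈ s, (1 - ‖φ k (inner ℂ (e k) z)‖ ^ 2) ≤ M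
  prod : ∀ z ∈ ball (0 : V n) 1, HasProd (fun k => φ k (inner ℂ (e k) z)) (f z)

/-- The equation `∑ F_i g_i = 1` has a solution with `g_i` holomorphic on `Ω` and bounded by `C`. -/
def Solvable {n m : ℕ} (Ω : Set (V n)) (F : Fin m → V n → ℂ) (C : ℝ) : Prop :=
  ∃ g : Fin m → V n → ℂ, (∀ i, DifferentiableOn ℂ (g i) Ω) ∧ (∀ i, ∀ z ∈ Ω, ‖g i z‖ ≤ C) ∧
    ∀ z ∈ Ω, ∑ i, F i z * g i z = 1

/-- **Corona theorem for products of functions of one variable.** Let `f_1, …, f_N` be products of
functions of one variable in arbitrary directions. If the arbitrary data `F_1, …, F_m` are solvable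
with bound `Q` on each set where one factor of each product is smaller than `ε`, then
`F_1, …, F_m, f_1, …, f_N` are solvable on the ball, with a bound which depends only on `N`, `m`,
`M`, `ε` and `Q`. -/
theorem result (N m : ℕ) (M ε Q : ℝ) (hε : 0 < ε) :
    ∃ C : ℝ, ∀ (n : ℕ) (κ : Fin N → Type) (e : ∀ j, κ j → V n) (φ : ∀ j, κ j → ℂ → ℂ)
      (f : Fin N → V n → ℂ) (F : Fin m → V n → ℂ),
      (∀ j, IsProduct M (e j) (φ j) (f j)) →
      (∀ i, DifferentiableOn ℂ (F i) (ball 0 1) ∧ ∀ z ∈ ball (0 : V n) 1, ‖F i z‖ ≤ 1) →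
      (∀ k : ∀ j, κ j, Solvable
        {z | z ∈ ball (0 : V n) 1 ∧ ∀ j, ‖φ j (k j) (inner ℂ (e j (k j)) z)‖ < ε} F Q) →
      Solvable (ball 0 1) (Fin.append F f) C := by
  obtain ⟨C, hC, H⟩ := Run7.h512.prods N m M Q hε
  refine ⟨C, ?_⟩
  intro n κ e φ f F hf hF hsol
  obtain ⟨h, g, h1, g1, h2, g2, h3⟩ := H (V n) κ e φ f
    (fun j => ⟨(hf j).unit, (hf j).hol, (hf j).bound, (hf j).sum, (hf j).prod⟩) F
    (fun i => (hF i).1) (fun i => (hF i).2) (fun k => by
      obtain ⟨g, g1, g2, g3⟩ := hsol k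
      have hsub : {z : V n | ‖z‖ < 1 ∧ ∀ j, ‖φ j (k j) (inner ℂ (e j (k j)) z)‖ < ε} ⊆
          {z | z ∈ ball (0 : V n) 1 ∧ ∀ j, ‖φ j (k j) (inner ℂ (e j (k j)) z)‖ < ε} :=
        fun z hz => ⟨mem_ball_zero_iff.2 hz.1, hz.2⟩
      exact ⟨g, fun i => (g1 i).mono hsub, fun i z hz => g2 i z (hsub hz),
        fun z hz => g3 z (hsub hz)⟩)
  refine ⟨Fin.append h g, ?_, ?_, ?_⟩
  · intro i
    refine Fin.addCases (fun i => ?_) (fun j => ?_) i
    · rw [Fin.append_left]
      exact h1 i
    · rw [Fin.append_right]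
      exact g1 j
  · intro i
    refine Fin.addCases (fun i => ?_) (fun j => ?_) i
    · rw [Fin.append_left]
      exact h2 i
    · rw [Fin.append_right]
      exact g2 j
  · intro z hz
    rw [Fin.sum_univ_add]
    simp only [Fin.append_left, Fin.append_right]
    exact h3 z hz

end Pool.Agent.Results.MP_ca0fc2_an.OneVariableProducts
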