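import Mathlib
import Pool.Agent.Run7.h512.Multi

/-!
Localisation of the corona problem on the unit ball of `ℂ^m` along several complex geodesics at
once: arbitrary corona data are solvable on the ball as soon as they are solvable, with a uniform
bound, on all intersections of `K` tubes of a fixed hyperbolic width, one along each of `K` given
geodesic projections. The constants depend neither on the dimension nor on the geodesics.

* `Pool.Agent.Run7.h512.Multi`: iteration of the slice localisation theorem of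
  `Pool.Agent.W732.Cor` (one direction, Moebius factors added to the data), and the localisation
  theorem for functions with affine fibres of `Pool.Agent.Y263.GF`.
-/

set_option autoImplicit false

open Metric Set

namespace Pool.Agent.Results.MP_ca0fc2_an.TubeLocalisation

/-- `ℂ^m` with the Euclidean norm. -/
abbrev V (m : ℕ) := EuclideanSpace ℂ (Fin m)

/-- The automorphisms of the ball (`‖q‖ = 1`, `|b| < 1`) which translate the complex geodesic
through `0` and `q`: `⟨q, mv q b z⟩ = (⟨q, z⟩ + b) / (1 + conj b ⟨q, z⟩)`. -/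
noncomputable def mv {m : ℕ} (q : V m) (b : ℂ) (z : V m) : V m :=
  (1 / (1 + starRingEnd ℂ b * inner ℂ q z)) •
    (((inner ℂ q z : ℂ) + b) • q + ((√(1 - ‖b‖ ^ 2) : ℝ) : ℂ) • (z - (inner ℂ q z : ℂ) • q))

/-- The holomorphic map `z ↦ ⟨p, mv q b z⟩` from the ball to the disc; it projects the ball to the
complex geodesic which `mv q b` maps to the geodesic through `0` and `p`. -/
noncomputable def proj {m : ℕ} (p q : V m) (b : ℂ) (z : V m) : ℂ := inner ℂ p (mv q b z)

/-- The pseudohyperbolic distance `|x - a| / |1 - conj a x|` on the disc. -/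
noncomputable def pseudo (a x : ℂ) : ℝ := ‖(x - a) / (1 - starRingEnd ℂ a * x)‖

/-- The equation `∑ F_i g_i = 1` has a solution with `g_i` holomorphic on `Ω` and bounded by `C`. -/
def Solvable {m N : ℕ} (Ω : Set (V m)) (F : Fin N → V m → ℂ) (C : ℝ) : Prop :=
  ∃ g : Fin N → V m → ℂ, (∀ i, DifferentiableOn ℂ (g i) Ω) ∧ (∀ i, ∀ z ∈ Ω, ‖g i z‖ ≤ C) ∧
    ∀ z ∈ Ω, ∑ i, F i z * g i z = 1

/-- **Localisation to intersections of tubes along `K` geodesics.** Arbitrary data `F_1, …, F_N`
are solvable on the ball if they are solvable with bound `C` on all sets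
`{z : pseudo (a_k) (proj p_k q_k b_k z) < η for k = 1, …, K}`, where `a_1, …, a_K` are points of the
disc; the bound of the solution depends only on `N`, `K`, `η` and `C`. -/
theorem result (N K : ℕ) (η C : ℝ) (hη : 0 < η) :
    ∃ C' : ℝ, ∀ (m : ℕ) (p q : Fin K → V m) (b : Fin K → ℂ) (F : Fin N → V m → ℂ),
      (∀ k, ‖p k‖ = 1 ∧ ‖q k‖ = 1 ∧ ‖b k‖ < 1) →
      (∀ i, DifferentiableOn ℂ (F i) (ball 0 1) ∧ ∀ z ∈ ball (0 : V m) 1, ‖F i z‖ ≤ 1) →
      (∀ a : Fin K → ℂ, (∀ k, ‖a k‖ < 1) →
        Solvable {z | z ∈ ball (0 : V m) 1 ∧ ∀ k, pseudo (a k) (proj (p k) (q k) (b k) z) < η} F C) →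
      Solvable (ball 0 1) F C' := by
  obtain ⟨C', H⟩ := Run7.h512.multi N K C hη
  refine ⟨C', ?_⟩
  intro m p q b F h1 h2 h3
  refine H m p q b (fun k => (h1 k).1) (fun k => (h1 k).2.1) (fun k => (h1 k).2.2) F
    (fun i => (h2 i).1) (fun i => (h2 i).2) (fun a ha => ?_)
  obtain ⟨g, g1, g2, g3⟩ := h3 a ha
  have hsub : {z : V m | ‖z‖ < 1 ∧ ∀ k,
      ‖Run7.h512.bl (a k) (Run7.h512.pr (p k) (q k) (b k) z)‖ < η} ⊆
      {z | z ∈ ball (0 : V m) 1 ∧ ∀ k, pseudo (a k) (proj (p k) (q k) (b k) z) < η} :=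
    fun z hz => ⟨mem_ball_zero_iff.2 hz.1, hz.2⟩
  exact ⟨g, fun j => (g1 j).mono hsub, fun j z hz => g2 j z (hsub hz), fun z hz => g3 z (hsub hz)⟩

end Pool.Agent.Results.MP_ca0fc2_an.TubeLocalisation
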